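import Mathlib
import Pool.Agent.Helper605.FT.V1

/-!
# Base of the A-side (Felsner-Trotter exact order): lists `v 1, .., v 9` on `{1,..,9}` (helper321)
-/

set_option autoImplicit false
set_option maxRecDepth 100000

namespace Pool.Agent.Helper321.FT

open Pool.Agent.Helper605.FT

/-- decode a bitmask (bit `i` = element `i`) -/
def bits (m : ℕ) : Finset ℕ := (Finset.range 10).filter (fun i => m.testBit i)

def vl : List (List ℕ) := [
  [32,40,8,12,4,6,2,130,128,144,16,528,512,768,256],
  [68,76,72,104,96,100,36,38,34,42,10,74,66,194,192,196,132,140,136,168,160,176,48,52,20,28,24,26,18,530,514,518,516,548,544,608,576,584,520,648,640,896,384,400,272,274,258,262,260,292,288,352,320,328,264],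
  [82,90,88,92,84,116,112,120,56,184,152,156,148,212,208,210,146,154,138,202,200,232,224,228,164,172,44,46,14,78,70,102,98,114,50,178,162,166,134,150,22,534,532,564,560,562,546,610,578,582,580,596,592,600,536,538,522,526,524,556,552,680,672,736,704,706,642,646,644,660,656,912,784,786,770,898,386,390,388,404,276,788,772,804,800,928,416,432,304,306,290,354,322,326,324,452,448,464,336,848,832,840,776,904,392,408,280,282,266,270,268,300,296],
  [30,94,86,214,198,230,226,242,240,248,216,220,204,206,142,174,170,186,58,122,106,110,108,124,60,188,180,182,54,566,550,614,612,628,624,626,594,602,586,590,588,604,540,572,568,570,554,618,616,744,712,714,650,682,674,678,676,740,708,716,652,668,664,696,688,752,720,722,658,914,402,406,278,790,774,902,900,932,420,436,308,820,816,818,802,930,418,422,294,358,356,484,480,482,450,466,338,342,340,372,368,880,864,866,834,838,836,964,960,968,456,472,344,856,792,794,778,906,394,398,396,428,424,426,298,314,312,824,808,812,780,796,284,348,332,334,330,362,360],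
  [62,190,158,222,218,250,234,238,236,252,244,246,118,630,598,606,542,574,558,622,620,636,632,760,728,730,666,698,690,754,738,742,710,718,654,686,684,700,692,756,724,726,662,918,916,948,944,946,434,438,310,822,806,870,868,996,992,994,962,966,454,470,468,500,496,498,370,882,850,854,852,980,976,984,920,922,410,442,440,952,936,940,908,910,782,798,286,350,346,858,842,970,458,490,488,504,376,888,872,874,810,814,302,318,316,444,412,476,460,972,844,876,364],
  [126,638,634,762,746,750,748,764,732,734,670,702,694,950,934,998,486,502,374,886,884,1012,1008,1010,978,986,474,506,378,890,826,830,828,956,924,988,860,862,846,974,462,478,414,446,430,942,938,1002,1000,1004,492,508,380,382,366],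
  [254,766,758,1014,982,990,926,958,954,1018,1016,1020,892,894,878,1006,494],
  [510],
  [1022]]

/-- the final flag of the base -/
def zA : List ℕ := [8, 3, 5, 6, 2, 1, 7, 4, 9]

def vA (k : ℕ) : List (Finset ℕ) := (vl.getD (k - 1) []).map bits

/-- the starting sets of the base -/
def RA (k : ℕ) : Finset ℕ :=
  if k = 1 then {5} else if k = 2 then {2, 6} else if k = 3 then {1, 4, 6} else Finset.Icc 1 k

def nsubB (c a : ℕ) : Bool := !(Nat.beq (Nat.land c a) c)

def adjB (a b : ℕ) : Bool :=
  Nat.beq (Nat.xor a b) 2 || Nat.beq (Nat.xor a b) 4 || Nat.beq (Nat.xor a b) 8 ||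
  Nat.beq (Nat.xor a b) 16 || Nat.beq (Nat.xor a b) 32 || Nat.beq (Nat.xor a b) 64 ||
  Nat.beq (Nat.xor a b) 128 || Nat.beq (Nat.xor a b) 256 || Nat.beq (Nat.xor a b) 512

def okA : List ℕ → ℕ → Bool
  | [], _ => true
  | b :: L, a => adjB a b && (L.all (fun c => nsubB c a) && okA L b)

def okL : List ℕ → Bool
  | [] => true
  | a :: L => okA L a

def crB (l l' : List ℕ) : Bool := l.all (fun a => l'.all (fun b => nsubB b a))

theorem mem_bits {m i : ℕ} : i ∈ bits m ↔ i < 10 ∧ m.testBit i = true := by
  simp [bits]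

theorem nsub_sound {c a : ℕ} (hc : c < 1024) (h : nsubB c a = true) : ¬ bits c ⊆ bits a := by
  intro hsub
  have h1 : Nat.land c a = c := by
    show c &&& a = c
    apply Nat.eq_of_testBit_eq
    intro i
    rw [Nat.testBit_and]
    cases hi : c.testBit i with
    | false => rfl
    | true =>
      have hi7 : i < 10 := by
        by_contra hcon
        have h2 : c < 2 ^ i := lt_of_lt_of_le hc (by
          calc 1024 = 2 ^ 10 := by norm_num
            _ ≤ 2 ^ i := Nat.pow_le_pow_right (by norm_num) (by omega))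
        rw [Nat.testBit_lt_two_pow h2] at hi
        exact absurd hi (by decide)
      have h3 := hsub (mem_bits.2 ⟨hi7, hi⟩)
      rw [(mem_bits.1 h3).2]
      rfl
  unfold nsubB at h
  rw [h1] at h
  simp at h

theorem adj_sound {a b : ℕ} (h : adjB a b = true) : Adj (bits a) (bits b) := by
  have h1 : ∃ x, x < 10 ∧ a ^^^ b = 2 ^ x := by
    unfold adjB at h
    simp only [Bool.or_eq_true] at h
    rcases h with (((((((h | h) | h) | h) | h) | h) | h) | h) | h
    · exact ⟨1, by norm_num, Nat.eq_of_beq_eq_true h⟩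
    · exact ⟨2, by norm_num, Nat.eq_of_beq_eq_true h⟩
    · exact ⟨3, by norm_num, Nat.eq_of_beq_eq_true h⟩
    · exact ⟨4, by norm_num, Nat.eq_of_beq_eq_true h⟩
    · exact ⟨5, by norm_num, Nat.eq_of_beq_eq_true h⟩
    · exact ⟨6, by norm_num, Nat.eq_of_beq_eq_true h⟩
    · exact ⟨7, by norm_num, Nat.eq_of_beq_eq_true h⟩
    · exact ⟨8, by norm_num, Nat.eq_of_beq_eq_true h⟩
    · exact ⟨9, by norm_num, Nat.eq_of_beq_eq_true h⟩
  obtain ⟨x, hx7, hx⟩ := h1
  have h2 : ∀ i, (a.testBit i ^^ b.testBit i) = decide (x = i) := by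
    intro i
    rw [← Nat.testBit_xor, hx, Nat.testBit_two_pow]
  have hxx := h2 x
  have h3 : ∀ i, i ≠ x → a.testBit i = b.testBit i := by
    intro i hi
    have := h2 i
    rw [decide_eq_false (fun h => hi h.symm)] at this
    cases ha : a.testBit i <;> cases hb : b.testBit i <;> simp_all
  cases ha : a.testBit x with
  | false =>
    have hb : b.testBit x = true := by
      rw [ha] at hxx; simpa using hxx
    refine Or.inl ⟨x, fun hm => ?_, ?_⟩
    · rw [(mem_bits.1 hm).2] at ha
      exact absurd ha (by decide)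
    · ext i
      rw [Finset.mem_insert, mem_bits, mem_bits]
      by_cases hi : i = x
      · subst hi
        simp [hb, hx7]
      · rw [h3 i hi]
        simp [hi]
  | true =>
    have hb : b.testBit x = false := by
      rw [ha] at hxx; simpa using hxx
    refine Or.inr ⟨x, fun hm => ?_, ?_⟩
    · rw [(mem_bits.1 hm).2] at hb
      exact absurd hb (by decide)
    · ext i
      rw [Finset.mem_insert, mem_bits, mem_bits]
      by_cases hi : i = x
      · subst hi
        simp [ha, hx7]
      · rw [h3 i hi]
        simp [hi]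

theorem okA_sound : ∀ (L : List ℕ) (a : ℕ), (∀ c ∈ a :: L, c < 1024) → okA L a = true →
    Ok ((a :: L).map bits)
  | [], a, _, _ => trivial
  | b :: L, a, hlt, h => by
    rw [okA, Bool.and_eq_true, Bool.and_eq_true, List.all_eq_true] at h
    refine ⟨adj_sound h.1, ?_, okA_sound L b (fun c hc => hlt c (List.mem_cons_of_mem _ hc)) h.2.2⟩
    intro c hc
    obtain ⟨d, hd, rfl⟩ := List.mem_map.1 hc
    exact nsub_sound (hlt d (by simp [hd])) (h.2.1 d hd)

theorem okL_sound (L : List ℕ) (hlt : ∀ c ∈ L, c < 1024) (h : okL L = true) : Ok (L.map bits) := by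
  cases L with
  | nil => trivial
  | cons a L => exact okA_sound L a hlt h

theorem vl_lt : ∀ k < 9, ∀ c ∈ vl.getD k [], c < 1024 := by decide +kernel

theorem vl_ok : ∀ k < 9, okL (vl.getD k []) = true := by decide +kernel

theorem vl_cross : ∀ l < 9, ∀ k < l, crB (vl.getD k []) (vl.getD l []) = true := by decide +kernel

theorem vl_card : ∀ k < 9, ∀ c ∈ vl.getD k [], (bits c).card = k + 1 ∨ (bits c).card = k + 2 := by
  decide +kernel

theorem vl_sub : ∀ k < 9, ∀ c ∈ vl.getD k [], bits c ⊆ (List.range' 1 9).toFinset := by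
  decide +kernel

theorem vA_head : ∀ k < 9, (vA (k + 1)).head? = some (RA (k + 1)) := by decide +kernel

theorem vA_last : ∀ k < 9, (vA (k + 1)).getLast? = some (zA.take (k + 1)).toFinset := by
  decide +kernel

theorem vA_len : ∀ k < 9, (vA (k + 1)).length + 1 =
    2 * Nat.choose 8 (k + 1) + (if 3 ≤ k + 1 ∧ (k + 1) % 2 = 1 then 2 else 0) := by decide +kernel

theorem vA_one : ∀ a ∈ vA 1, 6 ∉ a := by decide +kernel

theorem vA_two : ∀ a ∈ vA 2, ¬ ({4, 6} : Finset ℕ) ⊆ a := by decide +kernel

/-- TARGET -/
theorem abase : VVf 1 9 RA (List.range' 1 9) zA vA := by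
  have key : ∀ k, 1 ≤ k → k ≤ 9 → ∃ j, j < 9 ∧ k = j + 1 := fun k h1 h2 => ⟨k - 1, by omega, by omega⟩
  constructor
  · decide
  · decide
  · intro k h1 h2
    obtain ⟨j, hj, rfl⟩ := key k h1 h2
    have := vA_len j hj
    have e : (List.range' 1 9).length - 1 = 8 := rfl
    rw [e]
    omega
  · intro k h1 h2
    obtain ⟨j, hj, rfl⟩ := key k h1 h2
    exact okL_sound _ (vl_lt j hj) (vl_ok j hj)
  · intro k h1 h2 a ha
    obtain ⟨j, hj, rfl⟩ := key k h1 h2
    obtain ⟨c, hc, rfl⟩ := List.mem_map.1 ha
    exact vl_card j hj c hc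
  · intro k h1 h2 a ha
    obtain ⟨j, hj, rfl⟩ := key k h1 h2
    obtain ⟨c, hc, rfl⟩ := List.mem_map.1 ha
    exact vl_sub j hj c hc
  · intro k h1 h2
    obtain ⟨j, hj, rfl⟩ := key k h1 h2
    exact vA_head j hj
  · intro k h1 h2
    obtain ⟨j, hj, rfl⟩ := key k h1 h2
    exact vA_last j hj
  · intro k l h1 h2 h3 a ha b hb
    obtain ⟨j, hj, rfl⟩ := key k h1 (by omega)
    obtain ⟨i, hi, rfl⟩ := key l (by omega) h3
    obtain ⟨c, hc, rfl⟩ := List.mem_map.1 ha
    obtain ⟨d, hd, rfl⟩ := List.mem_map.1 hb
    have h4 := vl_cross i hi j (by omega)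
    unfold crB at h4
    rw [List.all_eq_true] at h4
    have h5 := h4 c hc
    rw [List.all_eq_true] at h5
    exact nsub_sound (vl_lt i hi d hd) (h5 d hd)

end Pool.Agent.Helper321.FT
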