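import Mathlib
import Pool.Agent.Helper321.FT.ABase
import Pool.Agent.Helper732.FT2.A1

set_option autoImplicit false

namespace Pool.Agent.Helper321.FT

open Pool.Agent.Helper605.FT Pool.Agent.Helper732.FT2

/-- starting sets of the base, in the form of `Helper732.FT2` -/
def R9 (k : ℕ) : Finset ℕ :=
  if k = 1 then {5} else if k = 2 then {6, 2} else if k = 3 then {6, 4, 1} else Finset.Icc 1 k

theorem RA_eq_R9 : RA = R9 := by
  funext k
  unfold RA R9
  split_ifs
  · rfl
  · decide
  · decide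
  · rfl

theorem abaseX : VX 9 6 4 R9 (List.range' 1 9) [8, 3, 5, 6, 2, 1, 7, 4, 9] vA := by
  refine ⟨?_, ?_, vA_one, ?_⟩
  · have := abase
    rw [RA_eq_R9] at this
    exact this
  · intro k h1 h2
    obtain ⟨j, rfl⟩ : ∃ j, k = j + 1 := ⟨k - 1, by omega⟩
    have := vA_len j (by omega)
    have e : (List.range' 1 9).length - 1 = 8 := rfl
    rw [e]
    exact this
  · intro a ha
    have h := vA_two a ha
    rw [Finset.pair_comm]
    exact h

theorem abase' : ∃ v, VX 9 6 4 R9 (List.range' 1 9) [8, 3, 5, 6, 2, 1, 7, 4, 9] v := ⟨vA, abaseX⟩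

end Pool.Agent.Helper321.FT
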